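import Mathlib

/-!
# Two counting lemmas
-/

set_option autoImplicit false

namespace Pool.Agent.H11.QN

open Finset

/-- The times `j < i ℓ` at which `ℓ` could have been freed: some `i'` with the same value of `v`
agrees with `i` up to time `j` and frees `ℓ` at the time `j`. -/
noncomputable def jumps {n : ℕ} {γ : Type} (v : (Fin n → Fin n) → γ) (i : Fin n → Fin n)
    (l : Fin n) : Finset (Fin n) := by
  classical
  exact univ.filter fun j => j < i l ∧
    ∃ i', v i' = v i ∧ (∀ l', min (i' l') j = min (i l') j) ∧ i' l = j

lemma mem_jumps {n : ℕ} {γ : Type} {v : (Fin n → Fin n) → γ} {i : Fin n → Fin n} {l j : Fin n} :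
    j ∈ jumps v i l ↔ j < i l ∧
      ∃ i', v i' = v i ∧ (∀ l', min (i' l') j = min (i l') j) ∧ i' l = j := by
  classical
  simp [jumps]

lemma jumps_inj_aux {n : ℕ} {γ : Type} {v : (Fin n → Fin n) → γ} {i i' : Fin n → Fin n}
    (hv : v i = v i') {l : Fin n} (hl : i' l < i l)
    (hmin : ∀ l', min (i' l') (i' l) = min (i l') (i' l)) :
    (jumps v i' l).card < (jumps v i l).card := by
  apply Finset.card_lt_card
  rw [Finset.ssubset_iff_of_subset]
  · refine ⟨i' l, mem_jumps.2 ⟨hl, i', hv.symm, hmin, rfl⟩, ?_⟩
    intro h
    exact lt_irrefl _ (mem_jumps.1 h).1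
  · intro j hj
    obtain ⟨hj1, i'', hv'', hm'', hi''⟩ := mem_jumps.1 hj
    refine mem_jumps.2 ⟨hj1.trans hl, i'', hv''.trans hv.symm, ?_, hi''⟩
    intro l'
    rw [hm'' l']
    have h1 := hmin l'
    calc min (i' l') j = min (min (i' l') (i' l)) j := by rw [min_assoc, min_eq_right hj1.le]
      _ = min (min (i l') (i' l)) j := by rw [h1]
      _ = min (i l') j := by rw [min_assoc, min_eq_right hj1.le]

/-- Counting: a map from the `n ^ n` functions to a small set has a function with many jumps. -/
theorem exists_many {n r : ℕ} {γ : Type} [Fintype γ] (v : (Fin n → Fin n) → γ)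
    (hcard : Fintype.card γ * r ^ n < n ^ n) : ∃ (i : Fin n → Fin n) (l : Fin n),
      r ≤ (jumps v i l).card := by
  classical
  by_contra hcon
  push Not at hcon
  let Φ : (Fin n → Fin n) → γ × (Fin n → Fin r) := fun i =>
    (v i, fun l => ⟨(jumps v i l).card, hcon i l⟩)
  have hΦ : Function.Injective Φ := by
    intro i i' h
    by_contra hne
    have hv : v i = v i' := congrArg Prod.fst h
    have hc : ∀ l, (jumps v i l).card = (jumps v i' l).card := fun l => by
      have := congrFun (congrArg Prod.snd h) l
      simpa [Φ] using this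
    -- the first difference
    have hne' : ∃ l, i l ≠ i' l := by
      by_contra hall
      push Not at hall
      exact hne (funext hall)
    obtain ⟨l, hl, hlmin⟩ := WellFounded.has_min
      (InvImage.wf (fun l : Fin n => min (i l) (i' l)) wellFounded_lt) {l | i l ≠ i' l} hne'
    have hmin : ∀ l', i l' ≠ i' l' → min (i l) (i' l) ≤ min (i l') (i' l') := fun l' hl' =>
      not_lt.1 (hlmin l' hl')
    rcases lt_or_gt_of_ne hl with h1 | h1
    · -- `i l < i' l`
      have : (jumps v i l).card < (jumps v i' l).card := by
        apply jumps_inj_aux hv.symm h1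
        intro l'
        by_cases hl' : i l' = i' l'
        · rw [hl']
        · have := hmin l' hl'
          rw [min_eq_left h1.le] at this
          rw [min_eq_right (this.trans (min_le_left _ _)),
            min_eq_right (this.trans (min_le_right _ _))]
      exact absurd (hc l) this.ne
    · have : (jumps v i' l).card < (jumps v i l).card := by
        apply jumps_inj_aux hv h1
        intro l'
        by_cases hl' : i l' = i' l'
        · rw [hl']
        · have := hmin l' hl'
          rw [min_eq_right h1.le] at this
          rw [min_eq_right (this.trans (min_le_right _ _)),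
            min_eq_right (this.trans (min_le_left _ _))]
      exact absurd (hc l) this.ne'
  have := Fintype.card_le_of_injective Φ hΦ
  simp only [Fintype.card_pi, Fintype.card_fin, Fintype.card_prod, Finset.prod_const,
    Finset.card_univ] at this
  omega

/-- Among many clones there are three, in increasing positions, with the same data. -/
lemma exists_tri {α : Type} [Finite α] {N : ℕ} (f : Fin (N + 1) → α) (p : Fin (N + 1) → ℕ)
    (hp : Function.Injective p) (hN : Nat.card α * 2 < N + 1) :
    ∃ a : Fin 3 → Fin (N + 1), f (a 0) = f (a 1) ∧ f (a 2) = f (a 1) ∧ p (a 0) < p (a 1) ∧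
      p (a 1) < p (a 2) := by
  classical
  have := Fintype.ofFinite α
  rw [Nat.card_eq_fintype_card] at hN
  obtain ⟨y, hy⟩ := Fintype.exists_lt_card_fiber_of_mul_lt_card (f := f) (n := 2)
    (by simpa using hN)
  set F := univ.filter fun x => f x = y with hF
  have hcard : 3 ≤ (F.image p).card := by
    rw [Finset.card_image_of_injective _ hp]
    exact hy
  let e := (F.image p).orderEmbOfCardLe hcard
  have he : ∀ t : Fin 3, ∃ a ∈ F, p a = e t := fun t => by
    have := (F.image p).orderEmbOfCardLe_mem hcard t
    obtain ⟨a, ha, hpa⟩ := Finset.mem_image.1 this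
    exact ⟨a, ha, hpa⟩
  choose a ha hpa using he
  have hfa : ∀ t, f (a t) = y := fun t => (Finset.mem_filter.1 (ha t)).2
  refine ⟨a, (hfa 0).trans (hfa 1).symm, (hfa 2).trans (hfa 1).symm, ?_, ?_⟩
  · rw [hpa, hpa]
    exact e.strictMono (by decide)
  · rw [hpa, hpa]
    exact e.strictMono (by decide)

end Pool.Agent.H11.QN
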