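import Mathlib

/-!
# Shallow minors, expansion and queue layouts of finite graphs
-/

set_option autoImplicit false

namespace Pool.Agent.H11.QN

/-- `H` is an `r`-shallow minor of `G`: there are pairwise disjoint vertex sets `B w` (`w` a vertex
of `H`) of `G`, each of which has a vertex `c` from which every vertex of `B w` can be reached by a
walk of length at most `r` inside `B w`, such that adjacent vertices `w, w'` of `H` have an edge of
`G` between `B w` and `B w'`. -/
def IsShallowMinor {V W : Type*} (r : ℕ) (H : SimpleGraph W) (G : SimpleGraph V) : Prop :=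
  ∃ B : W → Set V,
    (∀ w w', w ≠ w' → Disjoint (B w) (B w')) ∧
    (∀ w, ∃ c ∈ B w, ∀ v ∈ B w, ∃ p : G.Walk c v, p.length ≤ r ∧ ∀ u ∈ p.support, u ∈ B w) ∧
    (∀ w w', H.Adj w w' → ∃ x ∈ B w, ∃ y ∈ B w', G.Adj x y)

/-- A class of finite graphs (with vertex sets `Fin n`). -/
abbrev GraphClass : Type := (n : ℕ) → Set (SimpleGraph (Fin n))

/-- `∇_r(G) ≤ b r`: every `r`-shallow minor `H` of a member of the class, with `m` vertices, has at
most `b r * m` edges. -/
def ExpansionBound (C : GraphClass) (b : ℕ → ℝ) : Prop :=
  ∀ (n : ℕ) (G : SimpleGraph (Fin n)), G ∈ C n → ∀ (r m : ℕ) (H : SimpleGraph (Fin m)),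
    IsShallowMinor r H G → (H.edgeSet.ncard : ℝ) ≤ b r * m

/-- Linear expansion: `∇_r(G) ≤ c (r + 1)` for a constant `c`. -/
def LinearExpansion (C : GraphClass) : Prop :=
  ∃ c : ℝ, ExpansionBound C fun r => c * ((r : ℝ) + 1)

/-- Polynomial expansion: `∇_r(G) ≤ c (r + 1)^c` for a constant `c`. -/
def PolynomialExpansion (C : GraphClass) : Prop :=
  ∃ c : ℝ, ExpansionBound C fun r => c * ((r : ℝ) + 1) ^ c

/-- `G` has a `k`-queue layout: there are an injective position function `pos` of the vertices (a
linear order) and a colouring of the edges with the colours `0, …, k - 1` such that no two edges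
`xy`, `uv` of the same colour are nested, `pos x < pos u < pos v < pos y`. -/
def HasQueueLayout {V : Type*} (k : ℕ) (G : SimpleGraph V) : Prop :=
  ∃ (pos : V → ℕ) (col : Sym2 V → ℕ), Function.Injective pos ∧ (∀ e ∈ G.edgeSet, col e < k) ∧
    ∀ x y u v, G.Adj x y → G.Adj u v → col s(x, y) = col s(u, v) →
      ¬(pos x < pos u ∧ pos u < pos v ∧ pos v < pos y)

/-- The class has bounded queue-number. -/
def BoundedQueueNumber (C : GraphClass) : Prop :=
  ∃ k : ℕ, ∀ (n : ℕ) (G : SimpleGraph (Fin n)), G ∈ C n → HasQueueLayout k G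

/-! ### A universal graph of layered treewidth one -/

/-- A letter `(U, a)`: the set `U` of layers in which a new vertex is created, and an index. -/
abbrev Letter : Type := Finset ℕ × ℕ

/-- A node: a finite history, most recent letter first. -/
abbrev Node : Type := List Letter

/-- The most recent node of the history `s` at which layer `i` was renewed. -/
def holder (i : ℕ) : Node → Option Node
  | [] => none
  | x :: s => if i ∈ x.1 then some (x :: s) else holder i s

/-- Adjacency of the vertices `p = (s, i)` (created at the node `s` in layer `i`). -/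
def UAdj (p q : Node × ℕ) : Prop :=
  (p.2 = q.2 + 1 ∨ q.2 = p.2 + 1) ∧ holder p.2 p.1 = some p.1 ∧ holder q.2 q.1 = some q.1 ∧
    (holder q.2 p.1 = some q.1 ∨ holder p.2 q.1 = some p.1)

/-- The universal graph. -/
def UGraph : SimpleGraph (Node × ℕ) where
  Adj := UAdj
  symm := ⟨fun p q h => ⟨h.1.symm, h.2.2.1, h.2.1, h.2.2.2.symm⟩⟩
  loopless := ⟨fun p h => by rcases h.1 with h1 | h1 <;> omega⟩

/-- The class of all finite graphs that embed in the universal graph. -/
def UClass : GraphClass := fun n =>
  {G | ∃ f : Fin n → Node × ℕ, Function.Injective f ∧ ∀ x y, G.Adj x y → UGraph.Adj (f x) (f y)}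

end Pool.Agent.H11.QN
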