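import Pool.Agent.H11.QN.Defs

/-!
# The universal graph has linear expansion
-/

set_option autoImplicit false

namespace Pool.Agent.H11.QN

lemma holder_suffix {i : ℕ} : ∀ {s t : Node}, holder i s = some t → t <:+ s
  | [], t, h => by simp [holder] at h
  | x :: s, t, h => by
      unfold holder at h
      split_ifs at h with hx
      · cases h
        exact List.suffix_rfl
      · exact (holder_suffix h).trans (List.suffix_cons x s)

/-- A holder stays the holder at all nodes between its creation and a later time when it is the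
holder. -/
lemma holder_mid {i : ℕ} {t : Node} : ∀ {s s' : Node}, s <:+ s' → holder i s' = some t →
    t.length ≤ s.length → holder i s = some t := by
  intro s s' hss h hl
  obtain ⟨l, rfl⟩ := hss
  induction l with
  | nil => simpa using h
  | cons x l ih =>
      rw [List.cons_append] at h
      unfold holder at h
      split_ifs at h with hx
      · cases h
        simp at hl
      · exact ih h

lemma suffix_or {a b c : Node} (h1 : a <:+ c) (h2 : b <:+ c) (h : a.length ≤ b.length) : a <:+ b :=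
  List.suffix_of_suffix_length_le h1 h2 h

/-- The tops of adjacent vertices are comparable. -/
lemma adj_comparable {p q : Node × ℕ} (h : UGraph.Adj p q) : p.1 <:+ q.1 ∨ q.1 <:+ p.1 := by
  rcases h.2.2.2 with h1 | h1
  · exact Or.inr (holder_suffix h1)
  · exact Or.inl (holder_suffix h1)

/-- `p` is in the bag of the node `s`. -/
def InBag (s : Node) (p : Node × ℕ) : Prop := holder p.2 s = some p.1

lemma inBag_unique {s : Node} {p q : Node × ℕ} (hp : InBag s p) (hq : InBag s q)
    (h : p.2 = q.2) : p = q := by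
  unfold InBag at hp hq
  rw [h] at hp
  have := hp.symm.trans hq
  exact Prod.ext (by simpa using this) h

/-- If an edge `p q` goes from a vertex created strictly before `s` to one created at or after `s`,
then `p` is in the bag of `s`. -/
lemma inBag_of_edge {s : Node} {p q : Node × ℕ} (h : UGraph.Adj p q) (hq : s <:+ q.1)
    (hp : ¬ s <:+ p.1) : InBag s p := by
  rcases h.2.2.2 with h1 | h1
  · exact absurd (hq.trans (holder_suffix h1)) hp
  · have h2 : p.1 <:+ q.1 := holder_suffix h1
    refine holder_mid hq h1 ?_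
    by_contra hlt
    exact hp (suffix_or hq h2 (by omega))

/-- Along a walk starting at a vertex not after `s` and ending after `s`, there is a vertex in the
bag of `s`. -/
lemma exists_inBag_walk {s : Node} : ∀ {p q : Node × ℕ} (w : UGraph.Walk p q),
    ¬ s <:+ p.1 → s <:+ q.1 → ∃ u ∈ w.support, InBag s u
  | _, _, .nil, hp, hq => absurd hq hp
  | p, q, .cons (v := v) h w, hp, hq => by
      by_cases hv : s <:+ v.1
      · exact ⟨p, by simp, inBag_of_edge h hv hp⟩
      · obtain ⟨u, hu, hb⟩ := exists_inBag_walk w hv hq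
        exact ⟨u, by simp [hu], hb⟩

/-- Layers change by at most the length along a walk. -/
lemma walk_layer : ∀ {p q : Node × ℕ} (w : UGraph.Walk p q),
    |(p.2 : ℤ) - q.2| ≤ w.length
  | _, _, .nil => by simp
  | p, q, .cons (v := v) h w => by
      have h1 := walk_layer w
      have h2 : |(p.2 : ℤ) - v.2| ≤ 1 := by
        rcases h.1 with h1 | h1 <;> (rw [h1]; simp)
      have h3 : (p.2 : ℤ) - q.2 = ((p.2 : ℤ) - v.2) + (v.2 - q.2) := by ring
      rw [h3]
      refine (abs_add_le _ _).trans ?_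
      rw [SimpleGraph.Walk.length_cons]
      push_cast
      linarith

/-- In a set connected from a centre `c`, any two vertices are joined by a walk inside the set. -/
lemma walk_inside {B : Set (Node × ℕ)} {r : ℕ} {c : Node × ℕ}
    (hc : ∀ v ∈ B, ∃ p : UGraph.Walk c v, p.length ≤ r ∧ ∀ u ∈ p.support, u ∈ B)
    {x y : Node × ℕ} (hx : x ∈ B) (hy : y ∈ B) :
    ∃ p : UGraph.Walk x y, ∀ u ∈ p.support, u ∈ B := by
  obtain ⟨p, -, hp⟩ := hc x hx
  obtain ⟨p', -, hp'⟩ := hc y hy
  refine ⟨p.reverse.append p', ?_⟩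
  intro u hu
  rw [SimpleGraph.Walk.mem_support_append_iff] at hu
  rcases hu with hu | hu
  · exact hp u (by simpa using hu)
  · exact hp' u hu

/-- In a connected set all tops lie after the shortest one. -/
lemma top_suffix {x : Node × ℕ} : ∀ {y : Node × ℕ} (w : UGraph.Walk x y),
    (∀ u ∈ w.support, x.1.length ≤ u.1.length) → x.1 <:+ y.1 := by
  intro y w
  induction w using SimpleGraph.Walk.concatRec with
  | Hnil => intro _; exact List.suffix_rfl
  | @Hconcat a b c w h ih =>
      intro hu
      have h1 : a.1 <:+ b.1 := ih fun u hu' => hu u (by simp [SimpleGraph.Walk.support_concat, hu'])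
      have hc : a.1.length ≤ c.1.length := hu c (by simp [SimpleGraph.Walk.support_concat])
      rcases adj_comparable h with h2 | h2
      · exact h1.trans h2
      · exact suffix_or h1 h2 hc

/-- The main claim: if `B` and `B'` are adjacent connected sets with shortest tops `x.1` and `y.1`,
`x.1` not longer than `y.1`, then `B` meets the bag of `y.1`. -/
lemma exists_inBag {B B' : Set (Node × ℕ)} {x y : Node × ℕ}
    (hB : ∀ a ∈ B, ∀ b ∈ B, ∃ p : UGraph.Walk a b, ∀ u ∈ p.support, u ∈ B)
    (hB' : ∀ a ∈ B', ∀ b ∈ B', ∃ p : UGraph.Walk a b, ∀ u ∈ p.support, u ∈ B')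
    (hx : x ∈ B) (hy : y ∈ B')
    (hym : ∀ a ∈ B', y.1.length ≤ a.1.length) (hxy : x.1.length ≤ y.1.length)
    {a b : Node × ℕ} (ha : a ∈ B) (hb : b ∈ B') (hab : UGraph.Adj a b) :
    ∃ u ∈ B, InBag y.1 u := by
  have hyb : y.1 <:+ b.1 := by
    obtain ⟨p, hp⟩ := hB' y hy b hb
    exact top_suffix p fun u hu => hym u (hp u hu)
  by_cases hya : y.1 <:+ a.1
  · by_cases hyx : y.1 <:+ x.1
    · have : y.1 = x.1 := hyx.eq_of_length_le hxy
      refine ⟨x, hx, ?_⟩
      unfold InBag
      rw [this]
      have hax : x.1 <:+ a.1 := this ▸ hya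
      -- `x` is a real vertex
      obtain ⟨p, hp⟩ := hB x hx a ha
      cases p with
      | nil => exact hab.2.1
      | cons h _ => exact h.2.1
    · obtain ⟨p, hp⟩ := hB x hx a ha
      obtain ⟨u, hu, hbu⟩ := exists_inBag_walk p hyx hya
      exact ⟨u, hp u hu, hbu⟩
  · exact ⟨a, ha, inBag_of_edge hab hyb hya⟩

/-- **Linear expansion**, for shallow minors of the universal graph. -/
theorem card_le_of_shallowMinor {m r : ℕ} {H : SimpleGraph (Fin m)}
    (h : IsShallowMinor r H UGraph) : H.edgeSet.ncard ≤ (6 * r + 3) * m := by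
  classical
  obtain ⟨B, hdis, hcon, hadj⟩ := h
  choose c hc hcw using hcon
  have hconn : ∀ w, ∀ a ∈ B w, ∀ b ∈ B w, ∃ p : UGraph.Walk a b, ∀ u ∈ p.support, u ∈ B w :=
    fun w a ha b hb => walk_inside (hcw w) ha hb
  -- shortest tops
  have hmin : ∀ w, ∃ x ∈ B w, ∀ a ∈ B w, x.1.length ≤ a.1.length := by
    intro w
    obtain ⟨x, hx, hxm⟩ := WellFounded.has_min
      (InvImage.wf (fun p : Node × ℕ => p.1.length) wellFounded_lt) (B w) ⟨c w, hc w⟩
    exact ⟨x, hx, fun a ha => not_lt.1 (hxm a ha)⟩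
  choose x hx hxm using hmin
  -- the relation
  let R : Fin m → Finset (Fin m) := fun w' => Finset.univ.filter fun w =>
    H.Adj w w' ∧ (x w).1.length ≤ (x w').1.length
  have hkey : ∀ w', (R w').card ≤ 6 * r + 3 := by
    intro w'
    have hex : ∀ w ∈ R w', ∃ u ∈ B w, InBag (x w').1 u ∧
        (u.2 : ℤ) ∈ Finset.Icc ((c w').2 - (3 * r + 1) : ℤ) ((c w').2 + (3 * r + 1)) := by
      intro w hw
      obtain ⟨hadjw, hle⟩ := (Finset.mem_filter.1 hw).2
      obtain ⟨a, ha, b, hb, hab⟩ := hadj w w' hadjw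
      obtain ⟨u, hu, hbag⟩ := exists_inBag (hconn w) (hconn w') (hx w) (hx w') (hxm w') hle
        ha hb hab
      refine ⟨u, hu, hbag, ?_⟩
      obtain ⟨p1, hp1, -⟩ := hcw w u hu
      obtain ⟨p2, hp2, -⟩ := hcw w a ha
      obtain ⟨p3, hp3, -⟩ := hcw w' b hb
      have h1 := walk_layer p1
      have h2 := walk_layer p2
      have h3 := walk_layer p3
      have h4 := walk_layer (SimpleGraph.Walk.cons hab SimpleGraph.Walk.nil)
      simp only [SimpleGraph.Walk.length_cons, SimpleGraph.Walk.length_nil] at h4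
      have h1' : |((c w).2 : ℤ) - u.2| ≤ r := h1.trans (by exact_mod_cast hp1)
      have h2' : |((c w).2 : ℤ) - a.2| ≤ r := h2.trans (by exact_mod_cast hp2)
      have h3' : |((c w').2 : ℤ) - b.2| ≤ r := h3.trans (by exact_mod_cast hp3)
      have h4' : |(a.2 : ℤ) - b.2| ≤ 1 := by simpa using h4
      rw [abs_le] at h1' h2' h3' h4'
      rw [Finset.mem_Icc]
      constructor <;> linarith [h1'.1, h1'.2, h2'.1, h2'.2, h3'.1, h3'.2, h4'.1, h4'.2]
    choose! u hu hbag hlay using hex
    have hinj : Set.InjOn (fun w => ((u w).2 : ℤ)) (R w') := by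
      intro w1 hw1 w2 hw2 heq
      have h12 : (u w1).2 = (u w2).2 := Nat.cast_injective (R := ℤ) heq
      have h3 := inBag_unique (hbag w1 hw1) (hbag w2 hw2) h12
      by_contra hne
      exact Set.disjoint_left.1 (hdis w1 w2 hne) (hu w1 hw1) (h3 ▸ hu w2 hw2)
    have hcard := Finset.card_le_card_of_injOn (fun w => ((u w).2 : ℤ)) hlay hinj
    rw [Int.card_Icc] at hcard
    have : ((c w').2 + (3 * r + 1) + 1 - ((c w').2 - (3 * r + 1)) : ℤ).toNat = 6 * r + 3 := by
      have : ((c w').2 + (3 * r + 1) + 1 - ((c w').2 - (3 * r + 1)) : ℤ) = ((6 * r + 3 : ℕ) : ℤ) := by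
        push_cast; ring
      rw [this, Int.toNat_natCast]
    omega
  -- every edge is covered
  have hcover : H.edgeSet ⊆
      ((Finset.univ.sigma R).image fun z : (_ : Fin m) × Fin m => s(z.1, z.2) : Finset _) := by
    intro e he
    induction e using Sym2.ind with
    | _ a b =>
      rw [SimpleGraph.mem_edgeSet] at he
      simp only [Finset.coe_image, Set.mem_image, Finset.mem_coe, Finset.mem_sigma,
        Finset.mem_univ, true_and, R, Finset.mem_filter]
      rcases le_total (x a).1.length (x b).1.length with hle | hle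
      · exact ⟨⟨b, a⟩, ⟨he, hle⟩, Sym2.eq_swap⟩
      · exact ⟨⟨a, b⟩, ⟨he.symm, hle⟩, rfl⟩
  calc H.edgeSet.ncard ≤ ((Finset.univ.sigma R).image
        fun z : (_ : Fin m) × Fin m => s(z.1, z.2) : Finset _).card := by
        rw [← Set.ncard_coe_finset]
        exact Set.ncard_le_ncard hcover (Finset.finite_toSet _)
    _ ≤ (Finset.univ.sigma R).card := Finset.card_image_le
    _ = ∑ w', (R w').card := Finset.card_sigma _ _
    _ ≤ ∑ _w' : Fin m, (6 * r + 3) := Finset.sum_le_sum fun w' _ => hkey w'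
    _ = (6 * r + 3) * m := by simp [mul_comm]

/-- Shallow minors of a graph embedded in another one. -/
lemma isShallowMinor_map {V V' W : Type*} {r : ℕ} {H : SimpleGraph W} {G : SimpleGraph V}
    {G' : SimpleGraph V'} (f : V → V') (hf : Function.Injective f)
    (hG : ∀ x y, G.Adj x y → G'.Adj (f x) (f y)) (h : IsShallowMinor r H G) :
    IsShallowMinor r H G' := by
  obtain ⟨B, hdis, hcon, hadj⟩ := h
  refine ⟨fun w => f '' B w, ?_, ?_, ?_⟩
  · intro w w' hw
    exact (Set.disjoint_image_iff hf).2 (hdis w w' hw)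
  · intro w
    obtain ⟨c, hc, hcw⟩ := hcon w
    refine ⟨f c, ⟨c, hc, rfl⟩, ?_⟩
    rintro _ ⟨v, hv, rfl⟩
    obtain ⟨p, hp, hps⟩ := hcw v hv
    let φ : G →g G' := ⟨f, fun {a b} hab => hG a b hab⟩
    refine ⟨p.map φ, by simpa using hp, ?_⟩
    intro u hu
    rw [SimpleGraph.Walk.support_map, List.mem_map] at hu
    obtain ⟨a, ha, rfl⟩ := hu
    exact ⟨a, hps a ha, rfl⟩
  · intro w w' hw
    obtain ⟨a, ha, b, hb, hab⟩ := hadj w w' hw
    exact ⟨f a, ⟨a, ha, rfl⟩, f b, ⟨b, hb, rfl⟩, hG a b hab⟩

/-- The class has `∇_r ≤ 6 r + 3`. -/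
theorem expansionBound : ExpansionBound UClass fun r => 6 * r + 3 := by
  intro n G hG r m H hH
  obtain ⟨f, hf, hfG⟩ := hG
  have h := card_le_of_shallowMinor (isShallowMinor_map f hf hfG hH)
  calc (H.edgeSet.ncard : ℝ) ≤ (((6 * r + 3) * m : ℕ) : ℝ) := by exact_mod_cast h
    _ = (6 * r + 3) * m := by push_cast; ring

end Pool.Agent.H11.QN
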