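import Pool.Agent.H11.QN.Defs
import Pool.Agent.H11.QN.Comb

/-!
# The universal graph has unbounded queue-number
-/

set_option autoImplicit false

namespace Pool.Agent.H11.QN

open Finset

/-! ### From queue layouts to monotone relations -/

/-- `T` is a colouring of ordered pairs such that the edges (inside `S`) of each colour form a
monotone relation. -/
def Monotone' {κ : Type} (S : Set (Node × ℕ)) (pos : Node × ℕ → ℕ)
    (T : Node × ℕ → Node × ℕ → κ) : Prop :=
  Set.InjOn pos S ∧ ∀ x y x' y', x ∈ S → y ∈ S → x' ∈ S → y' ∈ S → UAdj x y → UAdj x' y' →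
    T x y = T x' y' → pos x < pos x' → pos y ≤ pos y'

lemma mono_of_queue {V : Type*} {G : SimpleGraph V} {pos : V → ℕ} {col : Sym2 V → ℕ}
    (hinj : Function.Injective pos)
    (hq : ∀ x y u v, G.Adj x y → G.Adj u v → col s(x, y) = col s(u, v) →
      ¬(pos x < pos u ∧ pos u < pos v ∧ pos v < pos y))
    {x y x' y' : V} (h : G.Adj x y) (h' : G.Adj x' y') (hc : col s(x, y) = col s(x', y'))
    (hd : pos x < pos y ↔ pos x' < pos y') (hx : pos x < pos x') : pos y ≤ pos y' := by
  by_contra hy
  push Not at hy
  by_cases h1 : pos x < pos y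
  · exact hq x y x' y' h h' hc ⟨hx, hd.1 h1, hy⟩
  · have h2 : ¬ pos x' < pos y' := fun h3 => h1 (hd.2 h3)
    have h3 : pos y < pos x := lt_of_le_of_ne (not_lt.1 h1) fun he => h.ne' (hinj he)
    refine hq y' x' y x h'.symm h.symm ?_ ⟨hy, h3, hx⟩
    rw [Sym2.eq_swap, ← hc, Sym2.eq_swap]

theorem exists_monotone {k : ℕ}
    (hk : ∀ (n : ℕ) (G : SimpleGraph (Fin n)), G ∈ UClass n → HasQueueLayout k G)
    {S : Set (Node × ℕ)} (hS : S.Finite) :
    ∃ (pos : Node × ℕ → ℕ) (T : Node × ℕ → Node × ℕ → Fin (k + 1) × Bool), Monotone' S pos T := by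
  classical
  have : Finite S := hS
  obtain ⟨m, ⟨e⟩⟩ := Finite.exists_equiv_fin S
  let G : SimpleGraph (Fin m) := UGraph.comap fun i => (e.symm i).1
  have hG : G ∈ UClass m := ⟨fun i => (e.symm i).1, fun a b hab =>
    e.symm.injective (Subtype.ext hab), fun x y h => h⟩
  obtain ⟨pos, col, hinj, hcol, hq⟩ := hk m G hG
  let P : Node × ℕ → ℕ := fun v => if h : v ∈ S then pos (e ⟨v, h⟩) else 0
  let C : Node × ℕ → Node × ℕ → Fin (k + 1) := fun x y =>
    if h : x ∈ S ∧ y ∈ S then ⟨min (col s(e ⟨x, h.1⟩, e ⟨y, h.2⟩)) k, by omega⟩ else 0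
  have hP : ∀ v (h : v ∈ S), P v = pos (e ⟨v, h⟩) := fun v h => by simp [P, h]
  have hadj : ∀ x y (hx : x ∈ S) (hy : y ∈ S), UAdj x y → G.Adj (e ⟨x, hx⟩) (e ⟨y, hy⟩) := by
    intro x y hx hy h
    change UAdj _ _
    simpa using h
  refine ⟨P, fun x y => (C x y, decide (P x < P y)), ?_, ?_⟩
  · intro x hx y hy hxy
    rw [hP x hx, hP y hy] at hxy
    simpa using hinj hxy
  · intro x y x' y' hx hy hx' hy' h h' hT hlt
    have h1 : C x y = C x' y' := congrArg Prod.fst hT
    have h2 : decide (P x < P y) = decide (P x' < P y') := congrArg Prod.snd hT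
    have h2' : P x < P y ↔ P x' < P y' := by
      simpa using h2
    simp only [C, hx, hy, hx', hy', and_self, dif_pos, Fin.mk.injEq] at h1
    have e1 := hcol s(e ⟨x, hx⟩, e ⟨y, hy⟩) (hadj x y hx hy h)
    have e2 := hcol s(e ⟨x', hx'⟩, e ⟨y', hy'⟩) (hadj x' y' hx' hy' h')
    rw [min_eq_left e1.le, min_eq_left e2.le] at h1
    rw [hP x hx, hP y hy, hP x' hx', hP y' hy'] at h2'
    rw [hP x hx, hP x' hx'] at hlt
    rw [hP y hy, hP y' hy']
    exact mono_of_queue hinj hq (hadj x y hx hy h) (hadj x' y' hx' hy' h') h1 h2' hlt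

/-! ### Histories -/

section

variable {n N : ℕ}

/-- A history: the steps `(D, a)`, most recent first. -/
abbrev Hist (n N : ℕ) : Type := List (Finset (Fin n) × Fin (N + 1))

/-- The layers in `D`. -/
def natSet (D : Finset (Fin n)) : Finset ℕ := D.map Fin.valEmbedding

lemma mem_natSet {D : Finset (Fin n)} {l : Fin n} : (l : ℕ) ∈ natSet D ↔ l ∈ D := by
  simp [natSet, Fin.val_inj]

lemma natSet_injective : Function.Injective (natSet (n := n)) := fun _ _ h =>
  Finset.map_injective _ h

/-- The node of a history. -/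
def enc : Hist n N → Node
  | [] => [({2 * n}, 0)]
  | (D, a) :: h => ({2 * n - 1 - h.length}, (a : ℕ)) :: (natSet D, 0) :: enc h

lemma enc_length : ∀ h : Hist n N, (enc h).length = 2 * h.length + 1
  | [] => rfl
  | (D, a) :: h => by
      simp only [enc, List.length_cons, enc_length h]
      omega

lemma enc_injective : Function.Injective (enc (n := n) (N := N)) := by
  intro h
  induction h with
  | nil =>
      intro h' he
      have := congrArg List.length he
      rw [enc_length, enc_length] at this
      simp at this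
      exact (List.length_eq_zero_iff.1 (by simpa using this.symm)).symm
  | cons x h ih =>
      intro h' he
      cases h' with
      | nil =>
          have := congrArg List.length he
          rw [enc_length, enc_length] at this
          simp at this
      | cons y h' =>
          obtain ⟨D, a⟩ := x
          obtain ⟨D', a'⟩ := y
          simp only [enc, List.cons.injEq, Prod.mk.injEq] at he
          obtain ⟨⟨-, h1⟩, ⟨h2, -⟩, h3⟩ := he
          rw [ih h3, natSet_injective h2, Fin.ext h1]

/-- The hub vertex of a history. -/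
def Hv (h : Hist n N) : Node × ℕ := (enc h, 2 * n - h.length)

/-- The vertex created in layer `l` after the history `h` by the first half of a step with the set
`D`. -/
def Xv (h : Hist n N) (D : Finset (Fin n)) (l : Fin n) : Node × ℕ :=
  ((natSet D, 0) :: enc h, (l : ℕ))

lemma Hv_injective : Function.Injective (Hv (n := n) (N := N)) := fun _ _ h =>
  enc_injective (congrArg Prod.fst h)

lemma Xv_length (h : Hist n N) (D : Finset (Fin n)) (l : Fin n) :
    (Xv h D l).1.length = 2 * h.length + 2 := by
  simp [Xv, enc_length]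

lemma holder_enc (h : Hist n N) (hh : h.length ≤ 2 * n - 1) :
    holder (2 * n - h.length) (enc h) = some (enc h) := by
  cases h with
  | nil => simp [enc, holder]
  | cons x h =>
      obtain ⟨D, a⟩ := x
      simp only [List.length_cons] at hh
      have : 2 * n - (h.length + 1) = 2 * n - 1 - h.length := by omega
      simp [enc, holder, this]

lemma hub_adj (h : Hist n N) (D : Finset (Fin n)) (a : Fin (N + 1)) (hh : h.length + 1 ≤ 2 * n - 1)
    (hD : 2 * n - h.length ∉ natSet D) : UAdj (Hv h) (Hv ((D, a) :: h)) := by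
  refine ⟨Or.inl ?_, ?_, ?_, Or.inr ?_⟩
  · simp only [Hv, List.length_cons]
    omega
  · exact holder_enc h (by omega)
  · exact holder_enc _ (by simpa using hh)
  · change holder (2 * n - h.length) (enc ((D, a) :: h)) = some (enc h)
    have h1 : 2 * n - h.length ∉ ({2 * n - 1 - h.length} : Finset ℕ) := by
      simp only [Finset.mem_singleton]
      omega
    simp only [enc, holder, h1, if_false, hD]
    exact holder_enc h (by omega)

lemma holder_step (h : Hist n N) (D : Finset (Fin n)) (a : Fin (N + 1)) (l : Fin n)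
    (hl : (l : ℕ) ≠ 2 * n - 1 - h.length) :
    holder l (enc ((D, a) :: h)) =
      if l ∈ D then some ((natSet D, 0) :: enc h) else holder l (enc h) := by
  have h1 : (l : ℕ) ∉ ({2 * n - 1 - h.length} : Finset ℕ) := by
    simpa only [Finset.mem_singleton] using hl
  by_cases h2 : l ∈ D
  · have h3 : (l : ℕ) ∈ natSet D := mem_natSet.2 h2
    simp only [enc, holder, h1, if_false, h2, h3, if_true]
  · have h3 : (l : ℕ) ∉ natSet D := fun h => h2 (mem_natSet.1 h)
    simp only [enc, holder, h1, if_false, h2, h3]

/-- All the vertices used. -/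
def SS (n N : ℕ) : Set (Node × ℕ) :=
  (fun h : Hist n N => Hv h) '' {h | h.length ≤ 2 * n} ∪
    (fun z : Hist n N × Finset (Fin n) × Fin n => Xv z.1 z.2.1 z.2.2) ''
      ({h : Hist n N | h.length ≤ 2 * n} ×ˢ Set.univ)

lemma SS_finite : (SS n N).Finite := by
  have h1 : {h : Hist n N | h.length ≤ 2 * n}.Finite := List.finite_length_le _ _
  exact (h1.image _).union ((h1.prod Set.finite_univ).image _)

lemma Hv_mem {h : Hist n N} (hh : h.length ≤ 2 * n) : Hv h ∈ SS n N :=
  Or.inl ⟨h, hh, rfl⟩

lemma Xv_mem {h : Hist n N} (hh : h.length ≤ 2 * n) (D : Finset (Fin n)) (l : Fin n) :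
    Xv h D l ∈ SS n N :=
  Or.inr ⟨(h, D, l), ⟨hh, trivial⟩, rfl⟩

end

/-! ### Patterns -/

/-- The type of patterns. -/
def Pat (n : ℕ) (κ : Type) : ℕ → Type
  | 0 => Unit
  | j + 1 => Finset (Fin n) → κ × Pat n κ j

instance finite_pat (n : ℕ) (κ : Type) [Finite κ] : ∀ j, Finite (Pat n κ j)
  | 0 => inferInstanceAs (Finite Unit)
  | j + 1 => by
      have := finite_pat n κ j
      exact inferInstanceAs (Finite (Finset (Fin n) → κ × Pat n κ j))

/-- Three clones with the same data, if they exist. -/
noncomputable def tri {α : Type} {N : ℕ} (f : Fin (N + 1) → α) (p : Fin (N + 1) → ℕ) :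
    Fin 3 → Fin (N + 1) := by
  classical
  exact if h : ∃ a : Fin 3 → Fin (N + 1), f (a 0) = f (a 1) ∧ f (a 2) = f (a 1) ∧
    p (a 0) < p (a 1) ∧ p (a 1) < p (a 2) then h.choose else fun _ => 0

lemma tri_spec {α : Type} [Finite α] {N : ℕ} {f : Fin (N + 1) → α} {p : Fin (N + 1) → ℕ}
    (hp : Function.Injective p) (hN : Nat.card α * 2 < N + 1) :
    (∀ b, f (tri f p b) = f (tri f p 1)) ∧ p (tri f p 0) < p (tri f p 1) ∧
      p (tri f p 1) < p (tri f p 2) := by
  classical
  have h := exists_tri f p hp hN
  have h2 : tri f p = h.choose := by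
    unfold tri
    rw [dif_pos h]
  rw [h2]
  obtain ⟨h3, h4, h5, h6⟩ := h.choose_spec
  refine ⟨fun b => ?_, h5, h6⟩
  fin_cases b
  · exact h3
  · rfl
  · exact h4

section

variable {n N : ℕ} {κ : Type} (pos : Node × ℕ → ℕ) (T : Node × ℕ → Node × ℕ → κ)

/-- The pattern below a history. -/
noncomputable def pat : (j : ℕ) → Hist n N → Pat n κ j
  | 0, _ => ()
  | j + 1, h => fun D =>
      (T (Hv h) (Hv ((D, tri (fun a => (T (Hv h) (Hv ((D, a) :: h)), pat j ((D, a) :: h)))
        (fun a => pos (Hv ((D, a) :: h))) 1) :: h)),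
       pat j ((D, tri (fun a => (T (Hv h) (Hv ((D, a) :: h)), pat j ((D, a) :: h)))
        (fun a => pos (Hv ((D, a) :: h))) 1) :: h))

/-- The chosen clones. -/
noncomputable def cl (j : ℕ) (h : Hist n N) (D : Finset (Fin n)) : Fin 3 → Fin (N + 1) :=
  tri (fun a => (T (Hv h) (Hv ((D, a) :: h)), pat pos T j ((D, a) :: h)))
    (fun a => pos (Hv ((D, a) :: h)))

lemma pat_succ (j : ℕ) (h : Hist n N) (D : Finset (Fin n)) :
    pat pos T (j + 1) h D = (T (Hv h) (Hv ((D, cl pos T j h D 1) :: h)),
      pat pos T j ((D, cl pos T j h D 1) :: h)) := rfl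

lemma cl_spec [Finite κ] {j : ℕ} {h : Hist n N} {D : Finset (Fin n)}
    (hpos : Set.InjOn pos (SS n N)) (hh : h.length < 2 * n)
    (hN : Nat.card (κ × Pat n κ j) * 2 < N + 1) :
    (∀ b, T (Hv h) (Hv ((D, cl pos T j h D b) :: h)) =
        T (Hv h) (Hv ((D, cl pos T j h D 1) :: h))) ∧
      (∀ b, pat pos T j ((D, cl pos T j h D b) :: h) =
        pat pos T j ((D, cl pos T j h D 1) :: h)) ∧
      pos (Hv ((D, cl pos T j h D 0) :: h)) < pos (Hv ((D, cl pos T j h D 1) :: h)) ∧
      pos (Hv ((D, cl pos T j h D 1) :: h)) < pos (Hv ((D, cl pos T j h D 2) :: h)) := by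
  have hp : Function.Injective fun a : Fin (N + 1) => pos (Hv ((D, a) :: h)) := by
    intro a a' haa
    have h1 := hpos (Hv_mem (h := (D, a) :: h) (by simpa using hh))
      (Hv_mem (h := (D, a') :: h) (by simpa using hh)) haa
    have h2 := Hv_injective h1
    simpa using h2
  obtain ⟨h1, h2, h3⟩ := tri_spec
    (f := fun a => (T (Hv h) (Hv ((D, a) :: h)), pat pos T j ((D, a) :: h))) hp hN
  exact ⟨fun b => congrArg Prod.fst (h1 b), fun b => congrArg Prod.snd (h1 b), h2, h3⟩

/-- One step of a run. -/
noncomputable def next (w : ℕ → Finset (Fin n)) (h : Hist n N) : Hist n N :=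
  (w h.length, cl pos T (2 * n - 1 - 1 - h.length) h (w h.length) 1) :: h

/-- The run from `h` along the word `w`. -/
noncomputable def run (w : ℕ → Finset (Fin n)) (h : Hist n N) : ℕ → Hist n N
  | 0 => h
  | t + 1 => next pos T w (run w h t)

lemma run_length (w : ℕ → Finset (Fin n)) (h : Hist n N) (t : ℕ) :
    (run pos T w h t).length = h.length + t := by
  induction t with
  | zero => rfl
  | succ t ih => simp [run, next, ih, add_assoc]

lemma run_add (w : ℕ → Finset (Fin n)) (h : Hist n N) (s : ℕ) : ∀ t,
    run pos T w h (s + t) = run pos T w (run pos T w h s) t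
  | 0 => rfl
  | t + 1 => by
      rw [← add_assoc]
      simp only [run]
      rw [run_add w h s t]

lemma run_congr {w w' : ℕ → Finset (Fin n)} (h : Hist n N) : ∀ t,
    (∀ s < h.length + t, w s = w' s) → run pos T w h t = run pos T w' h t
  | 0, _ => rfl
  | t + 1, hw => by
      simp only [run]
      rw [run_congr h t fun s hs => hw s (by omega)]
      unfold next
      rw [run_length, hw (h.length + t) (by omega)]

/-- Histories with the same pattern see the same colours along every word. -/
lemma pat_run (w : ℕ → Finset (Fin n)) {h h' : Hist n N} (hlen : h.length = h'.length) :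
    ∀ (t j J : ℕ), J = t + j → h.length + J = 2 * n - 1 → pat pos T J h = pat pos T J h' →
      pat pos T j (run pos T w h t) = pat pos T j (run pos T w h' t) ∧
      ∀ s < t, T (Hv (run pos T w h s)) (Hv (run pos T w h (s + 1))) =
        T (Hv (run pos T w h' s)) (Hv (run pos T w h' (s + 1))) := by
  intro t
  induction t with
  | zero =>
      intro j J hJ _ hp
      have hJ' : J = j := by omega
      subst hJ'
      exact ⟨hp, fun s hs => absurd hs (Nat.not_lt_zero s)⟩
  | succ t ih =>
      intro j J hJ hsum hp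
      obtain ⟨h1, h2⟩ := ih (j + 1) J (by omega) hsum hp
      have hl : (run pos T w h t).length = h.length + t := run_length pos T w h t
      have hl' : (run pos T w h' t).length = h.length + t := by
        rw [hlen]
        exact run_length pos T w h' t
      have h3 := congrFun h1 (w (h.length + t))
      rw [pat_succ, pat_succ] at h3
      have hidx : 2 * n - 1 - 1 - (h.length + t) = j := by omega
      have e1 : run pos T w h (t + 1) =
          (w (h.length + t), cl pos T j (run pos T w h t) (w (h.length + t)) 1) ::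
            run pos T w h t := by
        simp only [run]
        unfold next
        rw [hl, hidx]
      have e2 : run pos T w h' (t + 1) =
          (w (h.length + t), cl pos T j (run pos T w h' t) (w (h.length + t)) 1) ::
            run pos T w h' t := by
        simp only [run]
        unfold next
        rw [hl', hidx]
      refine ⟨?_, fun s hs => ?_⟩
      · rw [e1, e2]
        exact congrArg Prod.snd h3
      · rcases Nat.lt_succ_iff_lt_or_eq.1 hs with hs | rfl
        · exact h2 s hs
        · rw [e1, e2]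
          exact congrArg Prod.fst h3

end

end Pool.Agent.H11.QN
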