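import Pool.Agent.H11.QN.Lower
import Pool.Agent.H11.QN.Expansion

/-!
# The universal graph has unbounded queue-number: assembly
-/

set_option autoImplicit false

namespace Pool.Agent.H11.QN

open Finset

section

variable {n N : ℕ} {κ : Type} (pos : Node × ℕ → ℕ) (T : Node × ℕ → Node × ℕ → κ)

/-- The word of a freeing function. -/
def wd (i : Fin n → Fin n) (j : ℕ) : Finset (Fin n) := univ.filter fun l => j ≤ (i l : ℕ)

lemma mem_wd {i : Fin n → Fin n} {j : ℕ} {l : Fin n} : l ∈ wd i j ↔ j ≤ (i l : ℕ) := by
  simp [wd]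

/-- The main run of a freeing function. -/
noncomputable def spine (N : ℕ) (i : Fin n → Fin n) (m : ℕ) : Hist n N := run pos T (wd i) [] m

lemma spine_length (i : Fin n → Fin n) (m : ℕ) : (spine pos T N i m).length = m := by
  unfold spine
  rw [run_length]
  simp

/-- The colours along the main run. -/
noncomputable def vec (N : ℕ) (i : Fin n → Fin n) : Fin (2 * n - 1) → κ := fun t =>
  T (Hv (spine pos T N i t)) (Hv (spine pos T N i (t + 1)))

/-- The history after the clone `b` has been taken at time `j`. -/
noncomputable def side (N : ℕ) (i : Fin n → Fin n) (j : ℕ) (b : Fin 3) : Hist n N :=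
  (wd i j, cl pos T (2 * n - 1 - 1 - j) (spine pos T N i j) (wd i j) b) :: spine pos T N i j

/-- The run along `i` which takes the clone `b` at time `j` and continues along `i'`. -/
noncomputable def path (N : ℕ) (i i' : Fin n → Fin n) (j : ℕ) (b : Fin 3) (m : ℕ) : Hist n N :=
  if m ≤ j then spine pos T N i m else run pos T (wd i') (side pos T N i j b) (m - (j + 1))

lemma spine_succ (i : Fin n → Fin n) (j : ℕ) : spine pos T N i (j + 1) = side pos T N i j 1 := by
  unfold side
  conv_lhs => unfold spine
  simp only [run]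
  unfold next
  have := spine_length (N := N) pos T i j
  unfold spine at this
  rw [this]
  rfl

variable {pos T}

lemma path_le {i i' : Fin n → Fin n} {j m : ℕ} {b : Fin 3} (h : m ≤ j) :
    path pos T N i i' j b m = spine pos T N i m := by
  unfold path
  rw [if_pos h]

lemma path_add {i i' : Fin n → Fin n} {j s : ℕ} {b : Fin 3} :
    path pos T N i i' j b (j + 1 + s) = run pos T (wd i') (side pos T N i j b) s := by
  unfold path
  rw [if_neg (by omega)]
  congr 1
  omega

lemma path_jsucc {i i' : Fin n → Fin n} {j : ℕ} {b : Fin 3} :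
    path pos T N i i' j b (j + 1) = side pos T N i j b := by
  have := path_add (pos := pos) (T := T) (N := N) (i := i) (i' := i') (j := j) (s := 0) (b := b)
  simpa [run] using this

lemma path_length {i i' : Fin n → Fin n} {j m : ℕ} {b : Fin 3} :
    (path pos T N i i' j b m).length = m := by
  unfold path
  split_ifs with h
  · exact spine_length pos T i m
  · rw [run_length, side, List.length_cons, spine_length]
    omega

/-- Each step of a path adds one letter, whose set comes from the word of `i` or `i'`. -/
lemma path_succ {i i' : Fin n → Fin n} {j m : ℕ} {b : Fin 3} :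
    ∃ a, path pos T N i i' j b (m + 1) =
      (if m ≤ j then wd i m else wd i' m, a) :: path pos T N i i' j b m := by
  rcases lt_trichotomy m j with h | h | h
  · rw [path_le h, path_le h.le, if_pos h.le, spine_succ]
    exact ⟨_, rfl⟩
  · subst h
    rw [path_jsucc, path_le le_rfl, if_pos le_rfl]
    exact ⟨_, rfl⟩
  · obtain ⟨s, rfl⟩ : ∃ s, m = j + 1 + s := ⟨m - (j + 1), by omega⟩
    rw [if_neg (by omega), path_add, add_assoc (j + 1) s 1, path_add]
    have hl : (run pos T (wd i') (side pos T N i j b) s).length = j + 1 + s := by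
      rw [run_length, side, List.length_cons, spine_length]
    simp only [run]
    unfold next
    rw [hl]
    exact ⟨_, rfl⟩

lemma wd_agree {i i' : Fin n → Fin n} {j : Fin n} (hm : ∀ l', min (i' l') j = min (i l') j)
    {s : ℕ} (hs : s ≤ (j : ℕ)) : wd i s = wd i' s := by
  ext l
  rw [mem_wd, mem_wd]
  have h := congrArg (fun x : Fin n => (x : ℕ)) (hm l)
  simp only [Fin.coe_min] at h
  omega

/-- The colours along a path. -/
lemma path_color [Finite κ] (hpos : Set.InjOn pos (SS n N))
    (hN : ∀ j, j < 2 * n → Nat.card (κ × Pat n κ j) * 2 < N + 1) {i i' : Fin n → Fin n} {j : Fin n}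
    (hv : vec pos T N i' = vec pos T N i) (hm : ∀ l', min (i' l') j = min (i l') j) {b : Fin 3}
    {m : ℕ} (hlt : m < 2 * n - 1) :
    T (Hv (path pos T N i i' j b m)) (Hv (path pos T N i i' j b (m + 1))) =
      vec pos T N i ⟨m, hlt⟩ := by
  have hj := j.2
  have hspec := cl_spec (pos := pos) (T := T) (j := 2 * n - 1 - 1 - j)
    (h := spine pos T N i j) (D := wd i j) hpos (by rw [spine_length]; omega)
    (hN _ (by omega))
  rcases lt_trichotomy m (j : ℕ) with h | h | h
  · rw [path_le h.le, path_le h]
    rfl
  · subst h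
    rw [path_le le_rfl, path_jsucc]
    unfold vec
    simp only
    rw [spine_succ]
    exact hspec.1 b
  · obtain ⟨s, rfl⟩ : ∃ s, m = j + 1 + s := ⟨m - (j + 1), by omega⟩
    rw [add_assoc ((j : ℕ) + 1) s 1, path_add, path_add]
    have hlen : (side pos T N i j b).length = (side pos T N i j 1).length := by
      simp [side]
    have hpat : pat pos T (2 * n - 1 - 1 - j) (side pos T N i j b) =
        pat pos T (2 * n - 1 - 1 - j) (side pos T N i j 1) := hspec.2.1 b
    have hsum : (side pos T N i j b).length + (2 * n - 1 - 1 - j) = 2 * n - 1 := by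
      rw [side, List.length_cons, spine_length]
      omega
    have h1 := (pat_run pos T (wd i') hlen (s + 1) (2 * n - 1 - 1 - j - (s + 1))
      (2 * n - 1 - 1 - j) (by omega) hsum hpat).2 s (Nat.lt_succ_self s)
    rw [h1, ← spine_succ]
    have h2 : spine pos T N i (j + 1) = spine pos T N i' (j + 1) := by
      unfold spine
      apply run_congr
      intro s hs
      simp only [List.length_nil, zero_add] at hs
      exact wd_agree hm (by omega)
    rw [h2]
    have h3 : ∀ t, run pos T (wd i') (spine pos T N i' (j + 1)) t =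
        spine pos T N i' (j + 1 + t) := by
      intro t
      exact (run_add pos T (wd i') [] (j + 1) t).symm
    rw [h3, h3, ← hv]
    rfl

/-- Consecutive hubs of a path are adjacent. -/
lemma path_adj {i i' : Fin n → Fin n} {j m : ℕ} {b : Fin 3} (hm : m + 1 ≤ 2 * n - 1) :
    UAdj (Hv (path pos T N i i' j b m)) (Hv (path pos T N i i' j b (m + 1))) := by
  obtain ⟨a, ha⟩ := path_succ (pos := pos) (T := T) (N := N) (i := i) (i' := i') (j := j) (m := m)
    (b := b)
  rw [ha]
  apply hub_adj
  · rw [path_length]
    exact hm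
  · rw [path_length]
    intro hmem
    simp only [natSet, Finset.mem_map] at hmem
    obtain ⟨l, hl, hl2⟩ := hmem
    have hl3 : (l : ℕ) = 2 * n - m := hl2
    have hlt := l.2
    split_ifs at hl with hmj
    · have h1 := mem_wd.1 hl
      have h2 := (i l).2
      omega
    · have h1 := mem_wd.1 hl
      have h2 := (i' l).2
      omega

lemma path_holder {i i' : Fin n → Fin n} {j : Fin n} {b : Fin 3} {l : Fin n} (h1 : j < i l)
    (h2 : i' l = j) : ∀ s, (j : ℕ) + 1 + s ≤ 2 * n - 1 - l →
      holder l (enc (path pos T N i i' j b (j + 1 + s))) =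
        some ((natSet (wd i j), 0) :: enc (spine pos T N i j))
  | 0, _ => by
      have hj := j.2
      have hl := l.2
      rw [add_zero, path_jsucc]
      unfold side
      rw [holder_step, if_pos]
      · exact mem_wd.2 (by exact_mod_cast h1.le)
      · rw [spine_length]
        omega
  | s + 1, hs => by
      have ih := path_holder (b := b) h1 h2 s (by omega)
      obtain ⟨a, ha⟩ := path_succ (pos := pos) (T := T) (N := N) (i := i) (i' := i') (j := j)
        (m := j + 1 + s) (b := b)
      rw [← add_assoc, ha, holder_step, if_neg]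
      · exact ih
      · rw [if_neg (by omega), mem_wd, h2]
        omega
      · rw [path_length]
        omega

/-- The hub of a side path in layer `l + 1` is adjacent to the vertex of layer `l` created just
before the clone was taken. -/
lemma cross_adj {i i' : Fin n → Fin n} {j : Fin n} {b : Fin 3} {l : Fin n} (h1 : j < i l)
    (h2 : i' l = j) :
    UAdj (Xv (spine pos T N i j) (wd i j) l) (Hv (path pos T N i i' j b (2 * n - 1 - l))) := by
  have hj := j.2
  have hl := l.2
  have hmem : (l : ℕ) ∈ natSet (wd i j) := mem_natSet.2 (mem_wd.2 (by exact_mod_cast h1.le))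
  refine ⟨Or.inr ?_, ?_, ?_, Or.inr ?_⟩
  · change 2 * n - (path pos T N i i' j b (2 * n - 1 - l)).length = (l : ℕ) + 1
    rw [path_length]
    omega
  · simp only [Xv, holder, hmem, if_true]
  · exact holder_enc _ (by rw [path_length]; omega)
  · have := path_holder (pos := pos) (T := T) (N := N) (b := b) h1 h2 (2 * n - 1 - l - (j + 1))
      (by omega)
    rw [show (j : ℕ) + 1 + (2 * n - 1 - l - (j + 1)) = 2 * n - 1 - l by omega] at this
    exact this

/-- Monotonicity carries an inequality down two paths with the same colours. -/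
lemma order_persist (hmono : Monotone' (SS n N) pos T) {p q : ℕ → Hist n N} {m0 L : ℕ}
    (hL : L ≤ 2 * n - 1) (hpl : ∀ m, (p m).length = m) (hql : ∀ m, (q m).length = m)
    (hp : ∀ m, ∃ x, p (m + 1) = x :: p m) (hq : ∀ m, ∃ x, q (m + 1) = x :: q m)
    (hpa : ∀ m, m + 1 ≤ 2 * n - 1 → UAdj (Hv (p m)) (Hv (p (m + 1))))
    (hqa : ∀ m, m + 1 ≤ 2 * n - 1 → UAdj (Hv (q m)) (Hv (q (m + 1))))
    (hT : ∀ m, m < 2 * n - 1 → T (Hv (p m)) (Hv (p (m + 1))) = T (Hv (q m)) (Hv (q (m + 1))))
    (h0 : pos (Hv (p m0)) < pos (Hv (q m0))) :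
    ∀ s, m0 + s ≤ L → pos (Hv (p (m0 + s))) < pos (Hv (q (m0 + s)))
  | 0, _ => h0
  | s + 1, hs => by
      have ih := order_persist hmono hL hpl hql hp hq hpa hqa hT h0 s (by omega)
      have hmem : ∀ r : ℕ → Hist n N, (∀ m, (r m).length = m) → ∀ m ≤ 2 * n, Hv (r m) ∈ SS n N :=
        fun r hr m hm => Hv_mem (by rw [hr]; exact hm)
      rw [← add_assoc]
      refine lt_of_le_of_ne (hmono.2 _ _ _ _ (hmem p hpl _ (by omega)) (hmem p hpl _ (by omega))
        (hmem q hql _ (by omega)) (hmem q hql _ (by omega)) (hpa _ (by omega)) (hqa _ (by omega))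
        (hT _ (by omega)) ih) ?_
      intro he
      have h1 := Hv_injective (hmono.1 (hmem p hpl _ (by omega)) (hmem q hql _ (by omega)) he)
      obtain ⟨x, hx⟩ := hp (m0 + s)
      obtain ⟨y, hy⟩ := hq (m0 + s)
      rw [hx, hy] at h1
      have h2 : p (m0 + s) = q (m0 + s) := (List.cons.inj h1).2
      rw [h2] at ih
      exact lt_irrefl _ ih

/-- The main contradiction. -/
theorem main_aux [Fintype κ] (hmono : Monotone' (SS n N) pos T)
    (hN : ∀ j, j < 2 * n → Nat.card (κ × Pat n κ j) * 2 < N + 1)
    (hn : Fintype.card κ ^ (2 * n - 1) * (Fintype.card κ ^ 2 + 1) ^ n < n ^ n) : False := by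
  classical
  obtain ⟨i, l, hr⟩ := exists_many (r := Fintype.card κ ^ 2 + 1) (vec pos T N (n := n)) (by
    simpa using hn)
  have hjump : ∀ j ∈ jumps (vec pos T N) i l, ∃ i' : Fin n → Fin n, j < i l ∧
      vec pos T N i' = vec pos T N i ∧ (∀ l', min (i' l') j = min (i l') j) ∧ i' l = j := by
    intro j hj
    obtain ⟨h1, i', h2, h3, h4⟩ := mem_jumps.1 hj
    exact ⟨i', h1, h2, h3, h4⟩
  choose! I hlt hvec hmin hI using hjump
  -- the vertices
  let X : Fin n → Node × ℕ := fun j => Xv (spine pos T N i j) (wd i j) l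
  let B : Fin n → Fin 3 → Node × ℕ := fun j b => Hv (path pos T N i (I j) j b (2 * n - 1 - l))
  have hXB : ∀ j ∈ jumps (vec pos T N) i l, ∀ b, UAdj (X j) (B j b) := fun j hj b =>
    cross_adj (hlt j hj) (hI j hj)
  have hXmem : ∀ j, X j ∈ SS n N := fun j => Xv_mem (by rw [spine_length]; omega) _ _
  have hBmem : ∀ j b, B j b ∈ SS n N := fun j b => Hv_mem (by rw [path_length]; omega)
  -- comparison of two side paths
  have hcmp : ∀ j ∈ jumps (vec pos T N) i l, ∀ j' ∈ jumps (vec pos T N) i l, j < j' →
      ∀ b, pos (B j 0) < pos (B j' b) ∧ pos (B j' b) < pos (B j 2) := by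
    intro j hj j' hj' hjj b
    have hjj' : (j : ℕ) < j' := hjj
    have hspec := cl_spec (pos := pos) (T := T) (j := 2 * n - 1 - 1 - j)
      (h := spine pos T N i j) (D := wd i j) hmono.1 (by rw [spine_length]; omega)
      (hN _ (by omega))
    have hbase : ∀ c, path pos T N i (I j) j c (j + 1) = side pos T N i j c := fun c => path_jsucc
    have hbase' : path pos T N i (I j') j' b (j + 1) = side pos T N i j 1 := by
      rw [path_le hjj', spine_succ]
    have hs : (j : ℕ) + 1 + (2 * n - 1 - l - (j + 1)) = 2 * n - 1 - l := by omega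
    have hsucc : ∀ (a c : Fin n) (d : Fin 3) (m : ℕ), ∃ x, path pos T N i (I a) c d (m + 1) =
        x :: path pos T N i (I a) c d m := by
      intro a c d m
      obtain ⟨x, hx⟩ := path_succ (pos := pos) (T := T) (N := N) (i := i) (i' := I a) (j := c)
        (m := m) (b := d)
      exact ⟨_, hx⟩
    constructor
    · have := order_persist (p := path pos T N i (I j) j 0) (q := path pos T N i (I j') j' b)
        (m0 := j + 1) (L := 2 * n - 1 - l) hmono (by omega) (fun _ => path_length)
        (fun _ => path_length) (hsucc j j 0) (hsucc j' j' b) (fun _ h => path_adj h)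
        (fun _ h => path_adj h)
        (fun m h => by
          rw [path_color hmono.1 hN (hvec j hj) (hmin j hj) h,
            path_color hmono.1 hN (hvec j' hj') (hmin j' hj') h])
        (by rw [hbase, hbase']; exact hspec.2.2.1) (2 * n - 1 - l - (j + 1)) (by omega)
      rw [hs] at this
      exact this
    · have := order_persist (p := path pos T N i (I j') j' b) (q := path pos T N i (I j) j 2)
        (m0 := j + 1) (L := 2 * n - 1 - l) hmono (by omega) (fun _ => path_length)
        (fun _ => path_length) (hsucc j' j' b) (hsucc j j 2) (fun _ h => path_adj h)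
        (fun _ h => path_adj h)
        (fun m h => by
          rw [path_color hmono.1 hN (hvec j hj) (hmin j hj) h,
            path_color hmono.1 hN (hvec j' hj') (hmin j' hj') h])
        (by rw [hbase, hbase']; exact hspec.2.2.2) (2 * n - 1 - l - (j + 1)) (by omega)
      rw [hs] at this
      exact this
  -- two indices with the same colours
  obtain ⟨j, hj, j', hj', hne, heq⟩ := Finset.exists_ne_map_eq_of_card_lt_of_maps_to
    (s := jumps (vec pos T N) i l) (t := (univ : Finset (κ × κ)))
    (f := fun j => (T (X j) (B j 0), T (X j) (B j 2)))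
    (by rw [Finset.card_univ, Fintype.card_prod]; nlinarith [hr]) (fun _ _ => by simp)
  wlog hjj : j < j' generalizing j j'
  · exact this j' hj' j hj hne.symm heq.symm (lt_of_le_of_ne (not_lt.1 hjj) hne.symm)
  have h0 : T (X j) (B j 0) = T (X j') (B j' 0) := congrArg Prod.fst heq
  have h2 : T (X j) (B j 2) = T (X j') (B j' 2) := congrArg Prod.snd heq
  have hXne : pos (X j) ≠ pos (X j') := by
    intro he
    have h1 := hmono.1 (hXmem j) (hXmem j') he
    have h3 := congrArg (fun z : Node × ℕ => z.1.length) h1
    simp only [X, Xv_length, spine_length] at h3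
    exact hne (Fin.ext (by omega))
  rcases lt_or_gt_of_ne hXne with hX | hX
  · have h3 := hmono.2 _ _ _ _ (hXmem j) (hBmem j 2) (hXmem j') (hBmem j' 2) (hXB j hj 2)
      (hXB j' hj' 2) h2 hX
    exact absurd (hcmp j hj j' hj' hjj 2).2 (not_lt.2 h3)
  · have h3 := hmono.2 _ _ _ _ (hXmem j') (hBmem j' 0) (hXmem j) (hBmem j 0) (hXB j' hj' 0)
      (hXB j hj 0) h0.symm hX
    exact absurd (hcmp j hj j' hj' hjj 0).1 (not_lt.2 h3)

end

/-- The class has unbounded queue-number. -/
theorem not_boundedQueueNumber : ¬ BoundedQueueNumber UClass := by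
  rintro ⟨k, hk⟩
  let κ := Fin (k + 1) × Bool
  have hκ : 2 ≤ Fintype.card κ := by
    simp only [κ, Fintype.card_prod, Fintype.card_fin, Fintype.card_bool]
    omega
  set Q := Fintype.card κ with hQ
  let n := Q ^ 2 * (Q ^ 2 + 1)
  have hn1 : 1 ≤ n := Nat.one_le_iff_ne_zero.2 (by positivity)
  let N := ∑ j ∈ Finset.range (2 * n), Nat.card (κ × Pat n κ j) * 2
  obtain ⟨pos, T, hmono⟩ := exists_monotone (k := k) hk (SS_finite (n := n) (N := N))
  refine main_aux (κ := κ) (n := n) (N := N) (pos := pos) (T := T) hmono ?_ ?_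
  · intro j hj
    have : Nat.card (κ × Pat n κ j) * 2 ≤ N :=
      Finset.single_le_sum (f := fun j => Nat.card (κ × Pat n κ j) * 2) (fun _ _ => Nat.zero_le _)
        (Finset.mem_range.2 hj)
    omega
  · rw [← hQ]
    have h1 : n ^ n = Q ^ (2 * n) * (Q ^ 2 + 1) ^ n := by
      change (Q ^ 2 * (Q ^ 2 + 1)) ^ n = _
      rw [mul_pow, ← pow_mul]
    rw [h1]
    apply Nat.mul_lt_mul_of_pos_right
    · exact Nat.pow_lt_pow_right (by omega) (by omega)
    · positivity

/-- **Negative answer.** There is a class of finite graphs with linear expansion and unbounded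
queue-number. -/
theorem main : ∃ C : GraphClass, LinearExpansion C ∧ PolynomialExpansion C ∧
    ¬ BoundedQueueNumber C := by
  refine ⟨UClass, ⟨6, ?_⟩, ⟨6, ?_⟩, not_boundedQueueNumber⟩
  · intro n G hG r m H hH
    refine (expansionBound n G hG r m H hH).trans ?_
    apply mul_le_mul_of_nonneg_right _ (Nat.cast_nonneg m)
    linarith
  · intro n G hG r m H hH
    refine (expansionBound n G hG r m H hH).trans ?_
    apply mul_le_mul_of_nonneg_right _ (Nat.cast_nonneg m)
    have h1 : (1 : ℝ) ≤ (r : ℝ) + 1 := by
      have : (0 : ℝ) ≤ r := Nat.cast_nonneg r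
      linarith
    have h2 : ((r : ℝ) + 1) ^ (1 : ℝ) ≤ ((r : ℝ) + 1) ^ (6 : ℝ) :=
      Real.rpow_le_rpow_of_exponent_le h1 (by norm_num)
    rw [Real.rpow_one] at h2
    linarith

end Pool.Agent.H11.QN
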